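import Pool.Agent.Helper12.XG.St

/-!
# Project XG, module PAI: pairing with polynomials
-/

set_option autoImplicit false

namespace Pool.Agent.Helper8.XG

open Finset Polynomial Pool.Agent.Helper12.XG Pool.Agent.Helper14.GS

private theorem pair_zero (h q M : ℕ) (β : ℕ → ℕ → ℤ) (hm : ∀ k < M, mom h q β k = 0)
    (P : ℂ[X]) (hP : P.natDegree ≤ M) :
    ∑ j ∈ range (h + 1), ∑ b ∈ range q,
      (β j b : ℂ) * (hasseDeriv b P).eval (-(j : ℂ)) = P.coeff M * (mom h q β M : ℂ) := by
  have hsum : P = ∑ k ∈ range (M + 1), monomial k (P.coeff k) :=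
    P.as_sum_range' (M + 1) (Nat.lt_succ_of_le hP)
  have h1 : ∀ (j b : ℕ), (hasseDeriv b P).eval (-(j : ℂ)) =
      ∑ k ∈ range (M + 1), P.coeff k * ((k.choose b : ℂ) * (-(j : ℂ)) ^ (k - b)) := by
    intro j b
    conv_lhs => rw [hsum]
    rw [map_sum, eval_finsetSum]
    refine sum_congr rfl fun k _ => ?_
    rw [hasseDeriv_monomial, eval_monomial]
    ring
  have h2 : ∀ k, (mom h q β k : ℂ) = ∑ j ∈ range (h + 1), ∑ b ∈ range q,
      (β j b : ℂ) * ((k.choose b : ℂ) * (-(j : ℂ)) ^ (k - b)) := by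
    intro k
    simp [mom]
  calc ∑ j ∈ range (h + 1), ∑ b ∈ range q, (β j b : ℂ) * (hasseDeriv b P).eval (-(j : ℂ))
      = ∑ j ∈ range (h + 1), ∑ b ∈ range q, ∑ k ∈ range (M + 1),
          P.coeff k * ((β j b : ℂ) * ((k.choose b : ℂ) * (-(j : ℂ)) ^ (k - b))) := by
        refine sum_congr rfl fun j _ => sum_congr rfl fun b _ => ?_
        rw [h1, mul_sum]
        refine sum_congr rfl fun k _ => ?_
        ring
    _ = ∑ j ∈ range (h + 1), ∑ k ∈ range (M + 1), ∑ b ∈ range q,
          P.coeff k * ((β j b : ℂ) * ((k.choose b : ℂ) * (-(j : ℂ)) ^ (k - b))) := by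
        refine sum_congr rfl fun j _ => ?_
        rw [sum_comm]
    _ = ∑ k ∈ range (M + 1), ∑ j ∈ range (h + 1), ∑ b ∈ range q,
          P.coeff k * ((β j b : ℂ) * ((k.choose b : ℂ) * (-(j : ℂ)) ^ (k - b))) := by
        rw [sum_comm]
    _ = ∑ k ∈ range (M + 1), P.coeff k * (mom h q β k : ℂ) := by
        refine sum_congr rfl fun k _ => ?_
        rw [h2, mul_sum]
        refine sum_congr rfl fun j _ => ?_
        rw [mul_sum]
    _ = P.coeff M * (mom h q β M : ℂ) := by
        rw [sum_range_succ, sum_eq_zero, zero_add]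
        intro k hk
        rw [hm k (mem_range.1 hk)]
        simp

theorem hPAI : Pool.Agent.Helper12.XG.StPAI := by
  intro h q M β hm P hP x
  have h1 := pair_zero h q M β hm (taylor (-x) P) (by rw [natDegree_taylor]; exact hP)
  have h2 : (taylor (-x) P).coeff M = P.coeff M := by
    rcases hP.lt_or_eq with hlt | heq
    · rw [coeff_eq_zero_of_natDegree_lt hlt, coeff_eq_zero_of_natDegree_lt]
      rw [natDegree_taylor]; exact hlt
    · rw [← heq, coeff_taylor_natDegree]
      rfl
  rw [h2] at h1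
  rw [← h1]
  refine sum_congr rfl fun j _ => sum_congr rfl fun b _ => ?_
  rw [← taylor_coeff, ← taylor_coeff, taylor_taylor, sub_eq_add_neg]

end Pool.Agent.Helper8.XG
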